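import Mathlib

set_option autoImplicit false

/-!
# Exponential moments for random choice functions with bounded joint laws
-/

namespace Pool.Agent.K3h46.TM

open Finset Classical

/-- A finite probability space (weights `w`) with random functions `τ ω : ι → κ` whose joint laws
are at most `K^k` times the uniform ones. -/
structure Spread {Ω ι κ : Type} [Fintype Ω] [Fintype κ] (K : ℝ) (w : Ω → ℝ) (τ : Ω → ι → κ) :
    Prop where
  nonneg : ∀ ω, 0 ≤ w ω
  one : ∑ ω, w ω = 1
  spread : ∀ (S : Finset ι) (a : ι → κ),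
    ∑ ω ∈ univ.filter (fun ω => ∀ i ∈ S, τ ω i = a i), w ω ≤ (K / Fintype.card κ) ^ S.card

variable {Ω ι κ : Type} [Fintype Ω] [Fintype ι] [Fintype κ] {K : ℝ} {w : Ω → ℝ} {τ : Ω → ι → κ}

theorem Spread.prodS [Nonempty κ] (h : Spread K w τ) (S : Finset ι) (x : ι → κ → ℝ)
    (hx : ∀ i k, 0 ≤ x i k) :
    ∑ ω, w ω * ∏ i ∈ S, x i (τ ω i) ≤ ∏ i ∈ S, (K / Fintype.card κ * ∑ k, x i k) := by
  have h1 : ∀ ω, ∏ i ∈ S, x i (τ ω i) = ∑ a : S → κ,
      if ∀ i : S, τ ω i = a i then ∏ i : S, x i (a i) else 0 := by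
    intro ω
    have e1 : ∏ i ∈ S, x i (τ ω i) = ∏ i : S, ∑ k : κ, if τ ω i = k then x i k else 0 := by
      rw [← Finset.prod_coe_sort]
      refine Finset.prod_congr rfl fun i _ => ?_
      rw [Finset.sum_ite_eq]
      simp
    rw [e1, Finset.prod_univ_sum]
    simp only [Fintype.piFinset_univ]
    refine Finset.sum_congr rfl fun a _ => ?_
    have e2 : ∏ i : S, (if τ ω i = a i then x (i : ι) (a i) else 0) =
        if ∀ i : S, τ ω i = a i then ∏ i : S, x i (a i) else 0 := by
      rw [Finset.prod_ite_zero]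
      simp only [Finset.mem_univ, true_imp_iff]
    rw [e2]
  calc ∑ ω, w ω * ∏ i ∈ S, x i (τ ω i)
      = ∑ ω, ∑ a : S → κ, w ω * (if ∀ i : S, τ ω i = a i then ∏ i : S, x i (a i) else 0) := by
        refine Finset.sum_congr rfl fun ω _ => ?_
        rw [h1, Finset.mul_sum]
    _ = ∑ a : S → κ, (∏ i : S, x i (a i)) * ∑ ω ∈ univ.filter (fun ω => ∀ i : S, τ ω i = a i), w ω := by
        rw [Finset.sum_comm]
        refine Finset.sum_congr rfl fun a _ => ?_
        rw [Finset.mul_sum, Finset.sum_filter]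
        refine Finset.sum_congr rfl fun ω _ => ?_
        split_ifs <;> ring
    _ ≤ ∑ a : S → κ, (∏ i : S, x i (a i)) * (K / Fintype.card κ) ^ S.card := by
        refine Finset.sum_le_sum fun a _ => ?_
        refine mul_le_mul_of_nonneg_left ?_ (Finset.prod_nonneg fun i _ => hx _ _)
        set b : ι → κ := fun i => if hi : i ∈ S then a ⟨i, hi⟩ else Classical.arbitrary κ with hb
        have h2 := h.spread S b
        have h3 : univ.filter (fun ω => ∀ i : S, τ ω i = a i) =
            univ.filter (fun ω => ∀ i ∈ S, τ ω i = b i) := by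
          ext ω
          simp only [Finset.mem_filter, Finset.mem_univ, true_and]
          constructor
          · intro H i hi
            rw [hb]
            simp only [hi, dif_pos]
            exact H ⟨i, hi⟩
          · intro H i
            have := H i i.2
            rw [hb] at this
            simp only [i.2, dif_pos] at this
            exact this
        rw [h3]
        refine le_trans (le_of_eq ?_) h2
        congr
    _ = ∏ i ∈ S, (K / Fintype.card κ * ∑ k, x i k) := by
        rw [← Finset.sum_mul, Finset.prod_mul_distrib, Finset.prod_const, mul_comm]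
        congr 1
        rw [← Finset.prod_coe_sort S (fun i => ∑ k, x i k), Finset.prod_univ_sum]
        simp only [Fintype.piFinset_univ]

theorem Spread.exp_prod [Nonempty κ] (h : Spread K w τ) (x : ι → κ → ℝ)
    (hx : ∀ i k, 0 ≤ x i k) :
    ∑ ω, w ω * ∏ i, (1 + x i (τ ω i)) ≤ ∏ i, (1 + K / Fintype.card κ * ∑ k, x i k) := by
  have h1 : ∀ ω, ∏ i, (1 + x i (τ ω i)) = ∑ S ∈ (univ : Finset ι).powerset, ∏ i ∈ S, x i (τ ω i) :=
    fun ω => Finset.prod_one_add _
  have h2 : ∏ i, (1 + K / Fintype.card κ * ∑ k, x i k) =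
      ∑ S ∈ (univ : Finset ι).powerset, ∏ i ∈ S, (K / Fintype.card κ * ∑ k, x i k) :=
    Finset.prod_one_add _
  rw [h2]
  calc ∑ ω, w ω * ∏ i, (1 + x i (τ ω i))
      = ∑ ω, ∑ S ∈ (univ : Finset ι).powerset, w ω * ∏ i ∈ S, x i (τ ω i) := by
        refine Finset.sum_congr rfl fun ω _ => ?_
        rw [h1, Finset.mul_sum]
    _ = ∑ S ∈ (univ : Finset ι).powerset, ∑ ω, w ω * ∏ i ∈ S, x i (τ ω i) := Finset.sum_comm
    _ ≤ _ := Finset.sum_le_sum fun S _ => h.prodS S x hx

/-- The exponential moment. -/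
theorem Spread.exp_moment [Nonempty κ] (h : Spread K w τ) (hK : 0 ≤ K) (x : ι → κ → ℝ)
    (hx : ∀ i k, x i k = 0 ∨ x i k = 1) :
    ∑ ω, w ω * Real.exp (∑ i, x i (τ ω i)) ≤
      Real.exp (2 * K * ((∑ k, ∑ i, x i k) / Fintype.card κ)) := by
  have hx0 : ∀ i k, 0 ≤ x i k := fun i k => by rcases hx i k with h | h <;> rw [h] <;> norm_num
  have he : (0:ℝ) ≤ Real.exp 1 - 1 := by
    have := Real.add_one_le_exp (1:ℝ)
    linarith
  have he2 : Real.exp 1 - 1 ≤ 2 := by
    have := Real.exp_one_lt_d9
    linarith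
  have h1 : ∀ ω, Real.exp (∑ i, x i (τ ω i)) = ∏ i, (1 + (Real.exp 1 - 1) * x i (τ ω i)) := by
    intro ω
    rw [Real.exp_sum]
    refine Finset.prod_congr rfl fun i _ => ?_
    rcases hx i (τ ω i) with h | h <;> rw [h]
    · simp
    · ring
  have h2 := h.exp_prod (fun i k => (Real.exp 1 - 1) * x i k)
    (fun i k => mul_nonneg he (hx0 i k))
  calc ∑ ω, w ω * Real.exp (∑ i, x i (τ ω i))
      = ∑ ω, w ω * ∏ i, (1 + (Real.exp 1 - 1) * x i (τ ω i)) :=
        Finset.sum_congr rfl fun ω _ => by rw [h1]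
    _ ≤ _ := h2
    _ ≤ ∏ i, Real.exp (2 * K / Fintype.card κ * ∑ k, x i k) := by
        refine Finset.prod_le_prod (fun i _ => ?_) fun i _ => ?_
        · have : 0 ≤ ∑ k, (Real.exp 1 - 1) * x i k :=
            Finset.sum_nonneg fun k _ => mul_nonneg he (hx0 i k)
          positivity
        · have h3 : K / Fintype.card κ * ∑ k, (Real.exp 1 - 1) * x i k ≤
              2 * K / Fintype.card κ * ∑ k, x i k := by
            rw [← Finset.mul_sum]
            have h4 : 0 ≤ K / Fintype.card κ * ∑ k, x i k :=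
              mul_nonneg (by positivity) (Finset.sum_nonneg fun k _ => hx0 i k)
            calc K / Fintype.card κ * ((Real.exp 1 - 1) * ∑ k, x i k)
                = (Real.exp 1 - 1) * (K / Fintype.card κ * ∑ k, x i k) := by ring
              _ ≤ 2 * (K / Fintype.card κ * ∑ k, x i k) :=
                  mul_le_mul_of_nonneg_right he2 h4
              _ = _ := by ring
          have h5 := Real.add_one_le_exp (2 * K / Fintype.card κ * ∑ k, x i k)
          linarith
    _ = _ := by
        rw [← Real.exp_sum, ← Finset.mul_sum, Finset.sum_comm]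
        congr 1
        ring

theorem rpow_le_exp {q : ℝ} (hq : 0 < q) {F : ℝ} (hF : 0 ≤ F) :
    F ^ q ≤ (2 * q) ^ q * Real.exp (F / 2) := by
  have h1 : F / (2 * q) ≤ Real.exp (F / (2 * q)) := by
    have := Real.add_one_le_exp (F / (2 * q))
    linarith
  have h2 : F ≤ 2 * q * Real.exp (F / (2 * q)) := by
    rw [div_le_iff₀ (by positivity)] at h1
    linarith
  calc F ^ q ≤ (2 * q * Real.exp (F / (2 * q))) ^ q := Real.rpow_le_rpow hF h2 hq.le
    _ = (2 * q) ^ q * Real.exp (F / 2) := by
        rw [Real.mul_rpow (by positivity) (Real.exp_pos _).le, ← Real.exp_mul]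
        congr 2
        field_simp

/-- The tail of the multiplicity at a point. -/
theorem Spread.tail [Nonempty κ] (h : Spread K w τ) (hK : 0 ≤ K) (x : ι → κ → ℝ)
    (hx : ∀ i k, x i k = 0 ∨ x i k = 1) {q L : ℝ} (hq : 0 < q) (hL : 1 ≤ L) :
    ∑ ω, w ω * (if 4 * K * ((∑ k, ∑ i, x i k) / Fintype.card κ) + L < ∑ i, x i (τ ω i) then
        (∑ i, x i (τ ω i)) ^ q else 0) ≤
      4 * (2 * q) ^ q * K * Real.exp (-(L / 2)) * ((∑ k, ∑ i, x i k) / Fintype.card κ) := by
  have hx0 : ∀ i k, 0 ≤ x i k := fun i k => by rcases hx i k with h | h <;> rw [h] <;> norm_num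
  set m : ℝ := (∑ k, ∑ i, x i k) / Fintype.card κ with hm
  have hm0 : 0 ≤ m := div_nonneg (Finset.sum_nonneg fun k _ => Finset.sum_nonneg fun i _ => hx0 i k)
    (Nat.cast_nonneg _)
  have h1 := h.exp_moment hK x hx
  rw [← hm] at h1
  have hc : 0 ≤ (2 * q) ^ q := by positivity
  have h2 : ∀ ω, (if 4 * K * m + L < ∑ i, x i (τ ω i) then (∑ i, x i (τ ω i)) ^ q else 0) ≤
      2 * (2 * q) ^ q * Real.exp (-((4 * K * m + L) / 2)) * (Real.exp (∑ i, x i (τ ω i)) - 1) := by
    intro ω
    set F : ℝ := ∑ i, x i (τ ω i) with hF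
    have hF0 : 0 ≤ F := Finset.sum_nonneg fun i _ => hx0 _ _
    have h3 : 1 ≤ Real.exp F := Real.one_le_exp hF0
    split_ifs with h4
    · have h5 : 1 ≤ F := by
        have : 0 ≤ 4 * K * m := by positivity
        linarith
      have h6 : Real.exp F ≤ 2 * (Real.exp F - 1) := by
        have := Real.add_one_le_exp F
        linarith
      calc F ^ q ≤ (2 * q) ^ q * Real.exp (F / 2) := rpow_le_exp hq hF0
        _ ≤ (2 * q) ^ q * (Real.exp (-((4 * K * m + L) / 2)) * Real.exp F) := by
            refine mul_le_mul_of_nonneg_left ?_ hc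
            rw [← Real.exp_add]
            apply Real.exp_le_exp.2
            linarith
        _ ≤ (2 * q) ^ q * (Real.exp (-((4 * K * m + L) / 2)) * (2 * (Real.exp F - 1))) := by
            gcongr
        _ = _ := by ring
    · have : 0 ≤ Real.exp F - 1 := by linarith
      positivity
  have h5 : Real.exp (-(2 * K * m)) * (Real.exp (2 * K * m) - 1) ≤ 2 * K * m := by
    have e1 : Real.exp (-(2 * K * m)) * (Real.exp (2 * K * m) - 1) = 1 - Real.exp (-(2 * K * m)) := by
      rw [mul_sub, ← Real.exp_add]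
      simp
    rw [e1]
    have := Real.add_one_le_exp (-(2 * K * m))
    linarith
  calc ∑ ω, w ω * (if 4 * K * m + L < ∑ i, x i (τ ω i) then (∑ i, x i (τ ω i)) ^ q else 0)
      ≤ ∑ ω, w ω * (2 * (2 * q) ^ q * Real.exp (-((4 * K * m + L) / 2)) *
          (Real.exp (∑ i, x i (τ ω i)) - 1)) :=
        Finset.sum_le_sum fun ω _ => mul_le_mul_of_nonneg_left (h2 ω) (h.nonneg ω)
    _ = 2 * (2 * q) ^ q * Real.exp (-((4 * K * m + L) / 2)) *
          (∑ ω, w ω * Real.exp (∑ i, x i (τ ω i)) - ∑ ω, w ω) := by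
        rw [← Finset.sum_sub_distrib, Finset.mul_sum]
        refine Finset.sum_congr rfl fun ω _ => ?_
        ring
    _ ≤ 2 * (2 * q) ^ q * Real.exp (-((4 * K * m + L) / 2)) * (Real.exp (2 * K * m) - 1) := by
        rw [h.one]
        gcongr
    _ = 2 * (2 * q) ^ q * Real.exp (-(L / 2)) *
          (Real.exp (-(2 * K * m)) * (Real.exp (2 * K * m) - 1)) := by
        have : Real.exp (-((4 * K * m + L) / 2)) = Real.exp (-(L / 2)) * Real.exp (-(2 * K * m)) := by
          rw [← Real.exp_add]
          congr 1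
          ring
        rw [this]
        ring
    _ ≤ 2 * (2 * q) ^ q * Real.exp (-(L / 2)) * (2 * K * m) := by
        gcongr
    _ = _ := by ring

/-! ### The uniform law on the permutations -/

theorem pow_le_descFactorial {n s : ℕ} (hs : s ≤ n) :
    (n : ℝ) ^ s ≤ 3 ^ s * (n.descFactorial s : ℝ) := by
  -- `n^s s! ≤ s^s (n)_s`
  have h1 : n ^ s * s.factorial ≤ s ^ s * n.descFactorial s := by
    rw [← Nat.descFactorial_self s, Nat.descFactorial_eq_prod_range, Nat.descFactorial_eq_prod_range]
    have e1 : ∀ (a : ℕ) (f : ℕ → ℕ), a ^ s * ∏ i ∈ range s, f i = ∏ i ∈ range s, (a * f i) := by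
      intro a f
      rw [Finset.prod_mul_distrib, Finset.prod_const, Finset.card_range]
    rw [e1, e1]
    refine Finset.prod_le_prod' fun i hi => ?_
    have hi' : i < s := Finset.mem_range.1 hi
    obtain ⟨j, rfl⟩ : ∃ j, s = i + j := ⟨s - i, by omega⟩
    obtain ⟨k, rfl⟩ : ∃ k, n = i + j + k := ⟨n - (i + j), by omega⟩
    have e2 : i + j - i = j := by omega
    have e3 : i + j + k - i = j + k := by omega
    rw [e2, e3]
    nlinarith [Nat.zero_le (i * k)]
  have h2 : (s : ℝ) ^ s ≤ 3 ^ s * (s.factorial : ℝ) := by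
    have h3 := Real.pow_div_factorial_le_exp (x := (s : ℝ)) (Nat.cast_nonneg _) s
    have h4 : Real.exp (s : ℝ) ≤ 3 ^ s := by
      have : Real.exp (s : ℝ) = Real.exp 1 ^ s := by
        rw [← Real.exp_nat_mul]; simp
      rw [this]
      have := Real.exp_one_lt_d9
      exact pow_le_pow_left₀ (Real.exp_pos _).le (by linarith) _
    have h5 : (0:ℝ) < s.factorial := by exact_mod_cast s.factorial_pos
    rw [div_le_iff₀ h5] at h3
    calc (s:ℝ) ^ s ≤ Real.exp s * s.factorial := h3
      _ ≤ _ := by gcongr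
  have h1' : (n:ℝ) ^ s * s.factorial ≤ (s:ℝ) ^ s * n.descFactorial s := by exact_mod_cast h1
  have h5 : (0:ℝ) < s.factorial := by exact_mod_cast s.factorial_pos
  have h6 : (0:ℝ) ≤ n.descFactorial s := Nat.cast_nonneg _
  have h7 : (n:ℝ) ^ s * s.factorial ≤ (3 ^ s * (n.descFactorial s : ℝ)) * s.factorial := by
    calc (n:ℝ) ^ s * s.factorial ≤ (s:ℝ) ^ s * n.descFactorial s := h1'
      _ ≤ (3 ^ s * (s.factorial : ℝ)) * n.descFactorial s := by gcongr
      _ = _ := by ring
  exact le_of_mul_le_mul_right h7 h5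

theorem card_perm_fix (S : Finset ι) :
    (univ.filter (fun σ : Equiv.Perm ι => ∀ i ∈ S, σ i = i)).card =
      (Fintype.card ι - S.card).factorial := by
  have h1 : Fintype.card {σ : Equiv.Perm ι // ∀ i, ¬ (i ∉ S) → σ i = i} =
      (Fintype.card ι - S.card).factorial := by
    rw [← Fintype.card_congr (Equiv.Perm.subtypeEquivSubtypePerm (fun i => i ∉ S)),
      Fintype.card_perm, Fintype.card_subtype_compl]
    simp
  rw [← h1, Fintype.card_subtype]
  congr 1
  ext σ
  simp

theorem card_perm_le (S : Finset ι) (a : ι → ι) :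
    (univ.filter (fun σ : Equiv.Perm ι => ∀ i ∈ S, σ i = a i)).card ≤
      (Fintype.card ι - S.card).factorial := by
  rcases (univ.filter (fun σ : Equiv.Perm ι => ∀ i ∈ S, σ i = a i)).eq_empty_or_nonempty with h | h
  · rw [h]; simp
  · obtain ⟨σ0, h0⟩ := h
    have h0' : ∀ i ∈ S, σ0 i = a i := (Finset.mem_filter.1 h0).2
    rw [← card_perm_fix S]
    refine Finset.card_le_card_of_injOn (fun σ => σ0⁻¹ * σ) ?_ ?_
    · intro σ hσ
      have hσ' : ∀ i ∈ S, σ i = a i := (Finset.mem_filter.1 hσ).2
      simp only [Finset.coe_filter, Finset.mem_univ, true_and, Set.mem_ofPred_eq]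
      intro i hi
      rw [Equiv.Perm.mul_apply, hσ' i hi, ← h0' i hi]
      simp
    · intro σ _ σ' _ h
      simpa using h

theorem spread_perm [Nonempty ι] : Spread (Ω := Equiv.Perm ι) (ι := ι) (κ := ι) 3
    (fun _ => ((Fintype.card ι).factorial : ℝ)⁻¹) (fun σ i => σ i) := by
  refine ⟨fun _ => by positivity, ?_, ?_⟩
  · rw [Finset.sum_const, Finset.card_univ, Fintype.card_perm, nsmul_eq_mul]
    have : ((Fintype.card ι).factorial : ℝ) ≠ 0 := by
      exact_mod_cast (Fintype.card ι).factorial_ne_zero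
    field_simp
  · intro S a
    have hn : 0 < Fintype.card ι := Fintype.card_pos
    have hn' : (0:ℝ) < Fintype.card ι := by exact_mod_cast hn
    have hS : S.card ≤ Fintype.card ι := Finset.card_le_univ S
    rw [Finset.sum_const, nsmul_eq_mul, div_pow]
    have h1 : ((univ.filter (fun σ : Equiv.Perm ι => ∀ i ∈ S, σ i = a i)).card : ℝ) ≤
        ((Fintype.card ι - S.card).factorial : ℝ) := by exact_mod_cast card_perm_le S a
    have h2 := pow_le_descFactorial hS
    have h3 : ((Fintype.card ι).factorial : ℝ) =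
        ((Fintype.card ι - S.card).factorial : ℝ) * ((Fintype.card ι).descFactorial S.card : ℝ) := by
      exact_mod_cast (Nat.factorial_mul_descFactorial hS).symm
    have h4 : (0:ℝ) < ((Fintype.card ι - S.card).factorial : ℝ) := by
      exact_mod_cast Nat.factorial_pos _
    have h5 : (0:ℝ) < ((Fintype.card ι).descFactorial S.card : ℝ) := by
      exact_mod_cast Nat.descFactorial_pos.2 hS
    rw [h3, le_div_iff₀ (by positivity)]
    calc _ ≤ ((Fintype.card ι - S.card).factorial : ℝ) *
          (((Fintype.card ι - S.card).factorial : ℝ) *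
            ((Fintype.card ι).descFactorial S.card : ℝ))⁻¹ * (Fintype.card ι : ℝ) ^ S.card := by
          gcongr
          refine le_trans (le_of_eq ?_) (card_perm_le S a)
          congr
      _ = ((Fintype.card ι).descFactorial S.card : ℝ)⁻¹ * (Fintype.card ι : ℝ) ^ S.card := by
          rw [mul_inv]
          field_simp
      _ ≤ ((Fintype.card ι).descFactorial S.card : ℝ)⁻¹ *
            (3 ^ S.card * ((Fintype.card ι).descFactorial S.card : ℝ)) := by gcongr
      _ = 3 ^ S.card := by field_simp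

/-! ### Independent uniform choices -/

theorem spread_indep [Nonempty κ] : Spread (Ω := ι → κ) (ι := ι) (κ := κ) 1
    (fun _ => ((Fintype.card κ : ℝ) ^ Fintype.card ι)⁻¹) (fun f i => f i) := by
  have hn' : (0:ℝ) < Fintype.card κ := by exact_mod_cast Fintype.card_pos
  refine ⟨fun _ => by positivity, ?_, ?_⟩
  · rw [Finset.sum_const, Finset.card_univ, nsmul_eq_mul]
    have : (Fintype.card (ι → κ) : ℝ) = (Fintype.card κ : ℝ) ^ Fintype.card ι := by
      rw [Fintype.card_fun]; push_cast; rfl
    rw [this]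
    field_simp
  · intro S a
    have h1 : (univ.filter (fun f : ι → κ => ∀ i ∈ S, f i = a i)) =
        Fintype.piFinset (fun i => if i ∈ S then {a i} else univ) := by
      ext f
      simp only [Finset.mem_filter, Finset.mem_univ, true_and, Fintype.mem_piFinset]
      constructor
      · intro H i
        by_cases hi : i ∈ S
        · simp [hi, H i hi]
        · simp [hi]
      · intro H i hi
        have := H i
        simpa [hi] using this
    have h1' : ((univ.filter (fun f : ι → κ => ∀ i ∈ S, f i = a i)).card : ℝ) =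
        ((∏ i, (if i ∈ S then ({a i} : Finset κ) else univ).card : ℕ) : ℝ) := by
      rw [h1, Fintype.card_piFinset]
    rw [Finset.sum_const, nsmul_eq_mul]
    have h2 : ∏ i, (if i ∈ S then ({a i} : Finset κ) else univ).card =
        Fintype.card κ ^ (Fintype.card ι - S.card) := by
      have e1 : ∀ i, (if i ∈ S then ({a i} : Finset κ) else univ).card =
          if i ∈ S then 1 else Fintype.card κ := by
        intro i
        split_ifs <;> simp
      rw [Finset.prod_congr rfl fun i _ => e1 i, Finset.prod_ite]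
      simp only [Finset.prod_const_one, one_mul, Finset.prod_const]
      congr 1
      rw [Finset.filter_not, Finset.filter_mem_eq_inter, Finset.univ_inter,
        Finset.card_sdiff_of_subset (Finset.subset_univ _), Finset.card_univ]
    rw [h2] at h1'
    have hS : S.card ≤ Fintype.card ι := Finset.card_le_univ S
    have h3 : (Fintype.card κ : ℝ) ^ Fintype.card ι =
        (Fintype.card κ : ℝ) ^ (Fintype.card ι - S.card) * (Fintype.card κ : ℝ) ^ S.card := by
      rw [← pow_add]
      congr 1
      omega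
    have h4 : ((Fintype.card κ ^ (Fintype.card ι - S.card) : ℕ) : ℝ) *
        ((Fintype.card κ : ℝ) ^ Fintype.card ι)⁻¹ = (1 / (Fintype.card κ : ℝ)) ^ S.card := by
      rw [h3]
      push_cast
      rw [div_pow, one_pow, mul_inv]
      field_simp
    rw [← h4, ← h1']
    apply le_of_eq
    congr

end Pool.Agent.K3h46.TM
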