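import Pool.Agent.K3h46.TM.Mix

set_option autoImplicit false

/-!
# Random mixtures of families of tubes: the main theorem
-/

open MeasureTheory Set Filter Topology
open scoped ENNReal NNReal

namespace Pool.Agent.K3h46.TM

variable {n : ℕ} {Ω ι κ : Type} [Fintype Ω] [Fintype ι] [Fintype κ]

/-- The exponent in the exceptional proportion. -/
noncomputable def gam (n : ℕ) (q : ℝ) : ℝ := 1 - 1 / (((n : ℝ) - 1) * (q - 1))

theorem exps {n : ℕ} (hn : 2 ≤ n) {q : ℝ} (hq : (n : ℝ) / (n - 1) < q) :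
    0 < (n : ℝ) - 1 ∧ 1 < q ∧ 0 < gam n q ∧ gam n q ≤ 1 := by
  have h2 : (2:ℝ) ≤ n := by exact_mod_cast hn
  have h3 : 0 < (n:ℝ) - 1 := by linarith
  have h4 : (n:ℝ) < q * (n - 1) := by rwa [div_lt_iff₀ h3] at hq
  have h5 : 1 < q := by
    by_contra h
    push Not at h
    nlinarith
  have h6 : 1 < ((n:ℝ) - 1) * (q - 1) := by nlinarith
  refine ⟨h3, h5, ?_, ?_⟩
  · unfold gam
    rw [sub_pos, div_lt_one (by linarith)]
    exact h6
  · unfold gam
    have : 0 < 1 / (((n:ℝ) - 1) * (q - 1)) := by positivity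
    linarith

open Classical in
/-- **Random mixtures.** -/
theorem mix (n : ℕ) (hn : 2 ≤ n) (q : ℝ) (hq : (n : ℝ) / (n - 1) < q) :
    ∃ C : ℝ, 0 < C ∧ ∀ (K A δ : ℝ), 1 ≤ K → 1 ≤ A → 0 < δ →
      ∀ (Ω ι κ : Type) [Fintype Ω] [Fintype ι] [Fintype κ] (w : Ω → ℝ) (τ : Ω → ι → κ),
      Spread K w τ → ∀ (e : ι → EuclideanSpace ℝ (Fin n)) (b : κ → ι → EuclideanSpace ℝ (Fin n)),
      (∀ i, ‖e i‖ = 1) → (∀ k, Bound q A δ e (b k)) →
      ∑ ω ∈ Finset.univ.filter (fun ω => ¬ Bound q (C * K * A) δ e (fun i => b (τ ω i) i)), w ω ≤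
        C * K * Real.exp (-((Fintype.card ι : ℝ) ^ gam n q / 4)) := by
  obtain ⟨hD, hq1, hγ, hγ1⟩ := exps hn hq
  have hq0 : 0 < q := by linarith
  have hn1 : 1 ≤ n := by omega
  set γ : ℝ := gam n q with hγdef
  set D : ℝ := (n:ℝ) - 1 with hDdef
  -- constants
  set c1 : ℝ := 4 * (2 * q) ^ q * (4 / γ) ^ (1 / γ) with hc1
  set c2 : ℝ := (2:ℝ) ^ (n - 1) + 8 ^ q + 2 ^ (q - 1) * 2 ^ (n - 1) with hc2
  have hc1' : 0 < c1 := by positivity
  have hc2' : 0 < c2 := by positivity
  set C : ℝ := c1 + c2 ^ (1 / q) with hC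
  have hC0 : 0 < C := by positivity
  refine ⟨C, hC0, ?_⟩
  intro K A δ hK hA hδ Ω ι κ _ _ _ w τ hs e b he hb
  have hK0 : 0 ≤ K := by linarith
  have hA0 : 0 ≤ A := by linarith
  rcases isEmpty_or_nonempty ι with hι | hι
  · -- no tubes
    have h0 : Finset.univ.filter
        (fun ω => ¬ Bound q (C * K * A) δ e (fun i => b (τ ω i) i)) = ∅ := by
      rw [Finset.filter_eq_empty_iff]
      intro ω _
      rw [not_not]
      unfold Bound
      have : mult δ e (fun i => b (τ ω i) i) = fun _ => 0 := by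
        funext y
        unfold mult
        simp
      rw [this]
      simp
    rw [h0, Finset.sum_empty]
    positivity
  rcases isEmpty_or_nonempty Ω with hΩ | hΩ
  · exfalso
    have := hs.one
    simp at this
  have hκ : Nonempty κ := ⟨τ (Classical.arbitrary Ω) (Classical.arbitrary ι)⟩
  set M : ℝ := (Fintype.card ι : ℝ) with hM
  have hM1 : 1 ≤ M := by
    have : 1 ≤ Fintype.card ι := Fintype.card_pos
    rw [hM]
    exact_mod_cast this
  have hM0 : 0 < M := by linarith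
  set L : ℝ := M ^ γ with hL
  have hL1 : 1 ≤ L := Real.one_le_rpow hM1 hγ.le
  set R : ℝ := δ ^ (n - 1) * (M ^ (1 - 1 / (q * D))) ^ q with hR
  have hR0 : 0 ≤ R := by positivity
  have hMq : (M ^ (1 - 1 / (q * D))) ^ q = M ^ (q - 1 / D) := by
    rw [← Real.rpow_mul hM0.le]
    congr 1
    field_simp
  -- the good case
  have good : ∀ ω, ¬ (ENNReal.ofReal ((2 * δ) ^ (n - 1)) ≤
      ∫⁻ y, ENNReal.ofReal (top δ K L q e b (fun i => b (τ ω i) i) y)) →
      Bound q (C * K * A) δ e (fun i => b (τ ω i) i) := by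
    intro ω hω
    push Not at hω
    rw [bound_iff hq0 (by positivity) hδ hn1, ← hM, ← hDdef, ← hR]
    have h1 := lintegral_mult_rpow_le hn1 hK0 (by linarith : 0 ≤ L) hq1 hδ he b
      (fun i => b (τ ω i) i)
    have h2 : ∫⁻ y, ENNReal.ofReal (avg δ e b y ^ q) ≤ ENNReal.ofReal (A ^ q * R) := by
      refine lintegral_avg_rpow_le hq1.le fun k => ?_
      have := (bound_iff hq0 hA0 hδ hn1 e (b k)).1 (hb k)
      rw [← hM, ← hDdef, ← hR] at this
      exact this
    have hMexp : 1 ≤ M ^ (q - 1 / D) := by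
      apply Real.one_le_rpow hM1
      have : (n:ℝ) < q * D := by rwa [div_lt_iff₀ hD] at hq
      rw [sub_nonneg, div_le_iff₀ hD]
      have h2 : (2:ℝ) ≤ n := by exact_mod_cast hn
      linarith
    have hV : (2 * δ) ^ (n - 1) ≤ 2 ^ (n - 1) * R := by
      rw [hR, hMq, mul_pow]
      have : δ ^ (n - 1) ≤ δ ^ (n - 1) * M ^ (q - 1 / D) :=
        le_mul_of_one_le_right (by positivity) hMexp
      gcongr
    have hLM : (2 * L) ^ (q - 1) * (M * (2 * δ) ^ (n - 1)) = 2 ^ (q - 1) * 2 ^ (n - 1) * R := by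
      rw [hR, hMq, Real.mul_rpow (by norm_num) (by positivity), hL, ← Real.rpow_mul hM0.le, mul_pow]
      have e1 : M ^ (q - 1 / D) = M ^ (γ * (q - 1)) * M := by
        rw [← Real.rpow_add_one hM0.ne']
        congr 1
        rw [hγdef]
        unfold gam
        rw [← hDdef]
        have : q - 1 ≠ 0 := by
          have : 0 < q - 1 := by linarith
          exact this.ne'
        field_simp
        ring
      rw [e1]
      ring
    calc ∫⁻ y, ENNReal.ofReal (mult δ e (fun i => b (τ ω i) i) y ^ q)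
        ≤ (∫⁻ y, ENNReal.ofReal (top δ K L q e b (fun i => b (τ ω i) i) y)) +
          ENNReal.ofReal ((8 * K) ^ q) * (∫⁻ y, ENNReal.ofReal (avg δ e b y ^ q)) +
          ENNReal.ofReal ((2 * L) ^ (q - 1) * (M * (2 * δ) ^ (n - 1))) := h1
      _ ≤ ENNReal.ofReal (2 ^ (n - 1) * R) +
          ENNReal.ofReal ((8 * K) ^ q) * ENNReal.ofReal (A ^ q * R) +
          ENNReal.ofReal (2 ^ (q - 1) * 2 ^ (n - 1) * R) := by
          rw [hLM]
          gcongr
          exact hω.le.trans (ENNReal.ofReal_le_ofReal hV)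
      _ = ENNReal.ofReal (2 ^ (n - 1) * R + (8 * K) ^ q * (A ^ q * R) +
            2 ^ (q - 1) * 2 ^ (n - 1) * R) := by
          rw [← ENNReal.ofReal_mul (by positivity), ← ENNReal.ofReal_add (by positivity)
            (by positivity), ← ENNReal.ofReal_add (by positivity) (by positivity)]
      _ ≤ ENNReal.ofReal ((C * K * A) ^ q * R) := by
          apply ENNReal.ofReal_le_ofReal
          have hKA : 1 ≤ (K * A) ^ q := Real.one_le_rpow (one_le_mul_of_one_le_of_one_le hK hA) hq0.le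
          have hCq : c2 ≤ C ^ q := by
            calc c2 = (c2 ^ (1 / q)) ^ q := by
                  rw [← Real.rpow_mul hc2'.le]
                  have : 1 / q * q = 1 := by field_simp
                  rw [this, Real.rpow_one]
              _ ≤ C ^ q := Real.rpow_le_rpow (by positivity) (by rw [hC]; linarith) hq0.le
          have e1 : (8 * K) ^ q * (A ^ q * R) = 8 ^ q * (K * A) ^ q * R := by
            rw [Real.mul_rpow (by norm_num) hK0, Real.mul_rpow hK0 hA0]
            ring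
          have e2 : (C * K * A) ^ q * R = C ^ q * (K * A) ^ q * R := by
            rw [mul_assoc C K A, Real.mul_rpow hC0.le (by positivity)]
          rw [e1, e2]
          calc 2 ^ (n - 1) * R + 8 ^ q * (K * A) ^ q * R + 2 ^ (q - 1) * 2 ^ (n - 1) * R
              ≤ 2 ^ (n - 1) * (K * A) ^ q * R + 8 ^ q * (K * A) ^ q * R +
                  2 ^ (q - 1) * 2 ^ (n - 1) * (K * A) ^ q * R := by
                have a1 : (2:ℝ) ^ (n - 1) ≤ 2 ^ (n - 1) * (K * A) ^ q :=
                  le_mul_of_one_le_right (by positivity) hKA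
                have a2 : (2:ℝ) ^ (q - 1) * 2 ^ (n - 1) ≤
                    2 ^ (q - 1) * 2 ^ (n - 1) * (K * A) ^ q :=
                  le_mul_of_one_le_right (by positivity) hKA
                gcongr
            _ = c2 * (K * A) ^ q * R := by rw [hc2]; ring
            _ ≤ C ^ q * (K * A) ^ q * R := by gcongr
  -- the mass of the bad set
  have h3 := mass_top_le hs hK0 hq0 hL1 hn1 hδ he b
    (Finset.univ.filter (fun ω => ¬ Bound q (C * K * A) δ e (fun i => b (τ ω i) i))) (by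
      intro ω hω
      by_contra h
      exact (Finset.mem_filter.1 hω).2 (good ω h))
  refine h3.trans ?_
  have h4 : M ≤ (4 / γ) ^ (1 / γ) * Real.exp (L / 4) := by
    have h5 := rpow_le_exp (q := 1 / γ) (by positivity) (F := L / 2) (by positivity)
    have h6 : L ^ (1 / γ) = M := by
      rw [hL, ← Real.rpow_mul hM0.le]
      have : γ * (1 / γ) = 1 := by field_simp
      rw [this, Real.rpow_one]
    have h7 : (L / 2) ^ (1 / γ) = M / 2 ^ (1 / γ) := by
      rw [Real.div_rpow (by positivity) (by norm_num), h6]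
    rw [h7, div_le_iff₀ (by positivity)] at h5
    calc M ≤ (2 * (1 / γ)) ^ (1 / γ) * Real.exp (L / 2 / 2) * 2 ^ (1 / γ) := h5
      _ = ((2 * (1 / γ)) * 2) ^ (1 / γ) * Real.exp (L / 4) := by
          rw [Real.mul_rpow (x := 2 * (1 / γ)) (by positivity) (by norm_num)]
          have : L / 2 / 2 = L / 4 := by ring
          rw [this]
          ring
      _ = _ := by
          congr 2
          ring
  calc 4 * (2 * q) ^ q * K * Real.exp (-(L / 2)) * M
      ≤ 4 * (2 * q) ^ q * K * Real.exp (-(L / 2)) * ((4 / γ) ^ (1 / γ) * Real.exp (L / 4)) := by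
        gcongr
    _ = c1 * K * (Real.exp (-(L / 2)) * Real.exp (L / 4)) := by rw [hc1]; ring
    _ = c1 * K * Real.exp (-(L / 4)) := by
        rw [← Real.exp_add]
        congr 2
        ring
    _ ≤ C * K * Real.exp (-(L / 4)) := by
        have : c1 ≤ C := by rw [hC]; have : 0 ≤ c2 ^ (1 / q) := by positivity
                            linarith
        gcongr

open Classical in
/-- **Typical matchings.** -/
theorem matchings (n : ℕ) (hn : 2 ≤ n) (q : ℝ) (hq : (n : ℝ) / (n - 1) < q) :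
    ∃ C : ℝ, 0 < C ∧ ∀ (A δ : ℝ), 1 ≤ A → 0 < δ →
      ∀ (ι : Type) [Fintype ι] (e : ι → EuclideanSpace ℝ (Fin n))
        (b : ι → ι → EuclideanSpace ℝ (Fin n)),
      (∀ i, ‖e i‖ = 1) → (∀ k, Bound q A δ e (b k)) →
      ((Finset.univ.filter (fun σ : Equiv.Perm ι =>
          ¬ Bound q (C * A) δ e (fun i => b (σ i) i))).card : ℝ) ≤
        C * Real.exp (-((Fintype.card ι : ℝ) ^ gam n q / 4)) * (Fintype.card ι).factorial := by
  obtain ⟨C, hC, h⟩ := mix n hn q hq
  refine ⟨C * 3, by positivity, ?_⟩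
  intro A δ hA hδ ι _ e b he hb
  rcases isEmpty_or_nonempty ι with hι | hι
  · have h0 : Finset.univ.filter (fun σ : Equiv.Perm ι =>
          ¬ Bound q (C * 3 * A) δ e (fun i => b (σ i) i)) = ∅ := by
      rw [Finset.filter_eq_empty_iff]
      intro ω _
      rw [not_not]
      unfold Bound
      have : mult δ e (fun i => b (ω i) i) = fun _ => 0 := by
        funext y
        unfold mult
        simp
      rw [this]
      simp
    rw [h0, Finset.card_empty]
    push_cast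
    positivity
  have h1 := h 3 A δ (by norm_num) hA hδ (Equiv.Perm ι) ι ι _ _ spread_perm e b he hb
  rw [Finset.sum_const, nsmul_eq_mul] at h1
  have h2 : (0:ℝ) < (Fintype.card ι).factorial := by exact_mod_cast Nat.factorial_pos _
  rw [← div_eq_mul_inv, div_le_iff₀ h2] at h1
  exact h1

theorem tube_eq (δ : ℝ) (e b : EuclideanSpace ℝ (Fin n)) :
    tube δ e b = Pool.Agent.W767.Kc.tube δ e b := rfl

/-- Tubes near a curve of order at most `N`. -/
theorem curves (n : ℕ) (hn : 3 ≤ n) (q : ℝ) (hq : (n : ℝ) / (n - 1) < q) (R : ℝ) (hR : 0 ≤ R) :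
    ∃ C : ℝ, 1 ≤ C ∧ ∀ (N : ℕ) (γ : ℝ → EuclideanSpace ℝ (Fin n)), Continuous γ →
      (∀ ν : EuclideanSpace ℝ (Fin n), ν ≠ 0 →
        ∀ᵐ c : ℝ, {u : ℝ | inner ℝ ν (γ u) = c}.encard ≤ N) →
      ∀ δ : ℝ, 0 < δ → δ < 1 → ∀ (ι : Type) [Fintype ι] (e a : ι → EuclideanSpace ℝ (Fin n)),
        (∀ i, ‖e i‖ = 1) → (∀ i j, i ≠ j → δ ≤ ‖e i - e j‖) →
        (∀ i, ∃ s t : ℝ, |s| ≤ R ∧ ‖a i + s • e i - γ t‖ ≤ R * δ) →
        Bound q (C * ((N : ℝ) + 1)) δ e a := by
  obtain ⟨d, rfl⟩ : ∃ d, n = d + 1 := ⟨n - 1, by omega⟩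
  have hd : 2 ≤ d := by omega
  have hd2 : (2 : ℝ) ≤ d := by exact_mod_cast hd
  have e1 : ((d + 1 : ℕ) : ℝ) - 1 = d := by push_cast; ring
  have hq' : 1 + 1 / (d : ℝ) < q := by
    rw [e1] at hq
    have e2 : ((d + 1 : ℕ) : ℝ) / d = 1 + 1 / (d : ℝ) := by
      push_cast
      field_simp
    rwa [e2] at hq
  have hq1 : 1 < q := by
    have : 0 < 1 / (d:ℝ) := by positivity
    linarith
  obtain ⟨C, hC, h⟩ := Pool.Agent.K3h46.TMC.final d hd hq' hR hR
  refine ⟨C + 1, by linarith, ?_⟩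
  intro N γ hγ hN δ hδ hδ1 ι _ e a he hsep hcl
  have h1 := h N γ hγ hN δ hδ hδ1 ι e a he hsep hcl
  unfold Bound
  rw [e1]
  refine le_trans h1 (ENNReal.ofReal_le_ofReal ?_)
  have hN1 : (1:ℝ) ≤ (N:ℝ) + 1 := by
    have : (0:ℝ) ≤ N := Nat.cast_nonneg _
    linarith
  have h2 : ((N : ℝ) + 1) ^ (min (1 / q) (1 - 1 / q)) ≤ (N:ℝ) + 1 := by
    calc ((N : ℝ) + 1) ^ (min (1 / q) (1 - 1 / q)) ≤ ((N:ℝ) + 1) ^ (1:ℝ) := by
          apply Real.rpow_le_rpow_of_exponent_le hN1
          refine (min_le_left _ _).trans ?_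
          rw [div_le_one (by linarith)]
          exact hq1.le
      _ = _ := Real.rpow_one _
  gcongr
  linarith

/-- Tubes with a common centre. -/
theorem bush (n : ℕ) (hn : 3 ≤ n) (q : ℝ) (hq : (n : ℝ) / (n - 1) < q) :
    ∃ C : ℝ, 1 ≤ C ∧ ∀ (p : EuclideanSpace ℝ (Fin n)) (δ : ℝ), 0 < δ → δ < 1 →
      ∀ (ι : Type) [Fintype ι] (e : ι → EuclideanSpace ℝ (Fin n)),
        (∀ i, ‖e i‖ = 1) → (∀ i j, i ≠ j → δ ≤ ‖e i - e j‖) → Bound q C δ e (fun _ => p) := by
  obtain ⟨C, hC, h⟩ := curves n hn q hq 0 le_rfl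
  refine ⟨C, hC, ?_⟩
  intro p δ hδ hδ1 ι _ e he hsep
  have h1 := h 0 (fun _ => p) continuous_const (by
    intro ν _
    have : ∀ᵐ c : ℝ, c ≠ inner ℝ ν p := by
      rw [ae_iff]
      simp
    filter_upwards [this] with c hc
    have : {u : ℝ | inner ℝ ν p = c} = ∅ := by
      ext u
      simp only [mem_ofPred_eq, mem_empty_iff_false, iff_false]
      exact fun h => hc h.symm
    rw [this]
    simp) δ hδ hδ1 ι e (fun _ => p) he hsep (fun i => ⟨0, 0, by simp, by simp⟩)
  simpa using h1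

end Pool.Agent.K3h46.TM
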