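import Pool.Agent.K3h46.TM.Law
import Pool.Agent.K3h46.TMC.Final

set_option autoImplicit false

/-!
# Random mixtures of families of tubes
-/

open MeasureTheory Set Filter Topology
open scoped ENNReal NNReal

namespace Pool.Agent.K3h46.TM

/-- The closed tube of length `1` and radius `δ` with centre `b` and axis direction `e`. -/
def tube {n : ℕ} (δ : ℝ) (e b : EuclideanSpace ℝ (Fin n)) : Set (EuclideanSpace ℝ (Fin n)) :=
  {y | |inner ℝ (y - b) e| ≤ 1 / 2 ∧ ‖(y - b) - (inner ℝ (y - b) e : ℝ) • e‖ ≤ δ}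

/-- The number of the tubes that contain `y`. -/
noncomputable def mult {n : ℕ} {ι : Type} [Fintype ι] (δ : ℝ)
    (e b : ι → EuclideanSpace ℝ (Fin n)) (y : EuclideanSpace ℝ (Fin n)) : ℝ :=
  ∑ i, (tube δ (e i) (b i)).indicator (fun _ => (1 : ℝ)) y

/-- The conjectured inequality with the constant `C`. -/
def Bound {n : ℕ} {ι : Type} [Fintype ι] (q C δ : ℝ) (e b : ι → EuclideanSpace ℝ (Fin n)) : Prop :=
  eLpNorm (mult δ e b) (ENNReal.ofReal q) volume ≤
    ENNReal.ofReal (C * δ ^ (((n : ℝ) - 1) / q) *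
      (Fintype.card ι : ℝ) ^ (1 - 1 / (q * ((n : ℝ) - 1))))

variable {n : ℕ} {Ω ι κ : Type} [Fintype Ω] [Fintype ι] [Fintype κ]

theorem measurableSet_tube (δ : ℝ) (e b : EuclideanSpace ℝ (Fin n)) :
    MeasurableSet (tube δ e b) := by
  have h1 : Measurable (fun y : EuclideanSpace ℝ (Fin n) => |(inner ℝ (y - b) e : ℝ)|) := by
    fun_prop
  have h2 : Measurable (fun y : EuclideanSpace ℝ (Fin n) =>
    ‖(y - b) - (inner ℝ (y - b) e : ℝ) • e‖) := by fun_prop
  exact (measurableSet_le h1 measurable_const).inter (measurableSet_le h2 measurable_const)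

theorem volume_tube_le (hn : 1 ≤ n) {δ : ℝ} (hδ : 0 < δ) {e b : EuclideanSpace ℝ (Fin n)}
    (he : ‖e‖ = 1) : volume (tube δ e b) ≤ ENNReal.ofReal ((2 * δ) ^ (n - 1)) := by
  obtain ⟨d, rfl⟩ : ∃ d, n = d + 1 := ⟨n - 1, by omega⟩
  have h1 := TMC.volume_cyl_le (L := 1 / 2) (p := b) hδ (by norm_num) he
  have h2 : tube δ e b ⊆ TMC.cyl δ (Icc (-(1 / 2)) (1 / 2)) e b := by
    rintro y ⟨h1, h2⟩
    exact ⟨abs_le.1 h1, h2⟩
  refine (measure_mono h2).trans (h1.trans (le_of_eq ?_))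
  congr 1
  simp

theorem mult_nonneg (δ : ℝ) (e b : ι → EuclideanSpace ℝ (Fin n)) (y) : 0 ≤ mult δ e b y :=
  Finset.sum_nonneg fun i _ => indicator_nonneg (fun _ _ => zero_le_one) _

theorem measurable_mult (δ : ℝ) (e b : ι → EuclideanSpace ℝ (Fin n)) :
    Measurable (mult δ e b) := by
  unfold mult
  exact Finset.measurable_sum _ fun i _ => measurable_const.indicator (measurableSet_tube _ _ _)

theorem lintegral_mult_le (hn : 1 ≤ n) {δ : ℝ} (hδ : 0 < δ) {e b : ι → EuclideanSpace ℝ (Fin n)}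
    (he : ∀ i, ‖e i‖ = 1) :
    ∫⁻ y, ENNReal.ofReal (mult δ e b y) ≤
      ENNReal.ofReal ((Fintype.card ι : ℝ) * (2 * δ) ^ (n - 1)) := by
  have h1 : ∀ y, ENNReal.ofReal (mult δ e b y) =
      ∑ i, (tube δ (e i) (b i)).indicator (fun _ => (1 : ℝ≥0∞)) y := by
    intro y
    unfold mult
    rw [ENNReal.ofReal_sum_of_nonneg fun i _ => indicator_nonneg (fun _ _ => zero_le_one) _]
    refine Finset.sum_congr rfl fun i _ => ?_
    by_cases hy : y ∈ tube δ (e i) (b i)
    · rw [indicator_of_mem hy, indicator_of_mem hy]; simp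
    · rw [indicator_of_notMem hy, indicator_of_notMem hy]; simp
  simp_rw [h1]
  rw [lintegral_finsetSum _ fun i _ => measurable_const.indicator (measurableSet_tube _ _ _)]
  calc ∑ i, ∫⁻ y, (tube δ (e i) (b i)).indicator (fun _ => (1 : ℝ≥0∞)) y
      ≤ ∑ _i : ι, ENNReal.ofReal ((2 * δ) ^ (n - 1)) := by
        refine Finset.sum_le_sum fun i _ => ?_
        rw [lintegral_indicator (measurableSet_tube _ _ _), setLIntegral_one]
        exact volume_tube_le hn hδ (he i)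
    _ = _ := by
        rw [Finset.sum_const, Finset.card_univ, nsmul_eq_mul,
          ENNReal.ofReal_mul (Nat.cast_nonneg _), ENNReal.ofReal_natCast]

/-- The conjectured inequality in terms of the integral of the `q`-th power. -/
theorem bound_iff {q C δ : ℝ} (hq : 0 < q) (hC : 0 ≤ C) (hδ : 0 < δ) (hn : 1 ≤ n)
    (e b : ι → EuclideanSpace ℝ (Fin n)) :
    Bound q C δ e b ↔ ∫⁻ y, ENNReal.ofReal (mult δ e b y ^ q) ≤
      ENNReal.ofReal (C ^ q * (δ ^ (n - 1) *
        ((Fintype.card ι : ℝ) ^ (1 - 1 / (q * ((n : ℝ) - 1)))) ^ q)) := by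
  unfold Bound
  have hq0' : ENNReal.ofReal q ≠ 0 := by simpa using hq
  rw [eLpNorm_eq_lintegral_rpow_enorm_toReal hq0' ENNReal.ofReal_ne_top,
    ENNReal.toReal_ofReal hq.le, one_div, ENNReal.rpow_inv_le_iff hq]
  have h1 : ∀ y, ‖mult δ e b y‖ₑ ^ q = ENNReal.ofReal (mult δ e b y ^ q) := by
    intro y
    rw [Real.enorm_of_nonneg (mult_nonneg _ _ _ _), ENNReal.ofReal_rpow_of_nonneg
      (mult_nonneg _ _ _ _) hq.le]
  simp_rw [h1]
  have h2 : ENNReal.ofReal (C * δ ^ (((n : ℝ) - 1) / q) *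
      (Fintype.card ι : ℝ) ^ (1 - 1 / (q * ((n : ℝ) - 1)))) ^ q =
      ENNReal.ofReal (C ^ q * (δ ^ (n - 1) *
        ((Fintype.card ι : ℝ) ^ (1 - 1 / (q * ((n : ℝ) - 1)))) ^ q)) := by
    rw [ENNReal.ofReal_rpow_of_nonneg (by positivity) hq.le]
    congr 1
    rw [Real.mul_rpow (by positivity) (by positivity), Real.mul_rpow hC (by positivity),
      ← Real.rpow_mul hδ.le, div_mul_cancel₀ _ hq.ne']
    have : δ ^ ((n : ℝ) - 1) = δ ^ (n - 1) := by
      rw [← Real.rpow_natCast]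
      congr 1
      rw [Nat.cast_sub hn, Nat.cast_one]
    rw [this]
    ring
  rw [h2]

/-- The averaged multiplicity. -/
noncomputable def avg {n : ℕ} {ι κ : Type} [Fintype ι] [Fintype κ] (δ : ℝ)
    (e : ι → EuclideanSpace ℝ (Fin n)) (b : κ → ι → EuclideanSpace ℝ (Fin n))
    (y : EuclideanSpace ℝ (Fin n)) : ℝ := (∑ k, mult δ e (b k) y) / Fintype.card κ

theorem avg_nonneg (δ : ℝ) (e : ι → EuclideanSpace ℝ (Fin n))
    (b : κ → ι → EuclideanSpace ℝ (Fin n)) (y) : 0 ≤ avg δ e b y :=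
  div_nonneg (Finset.sum_nonneg fun _ _ => mult_nonneg _ _ _ _) (Nat.cast_nonneg _)

theorem measurable_avg (δ : ℝ) (e : ι → EuclideanSpace ℝ (Fin n))
    (b : κ → ι → EuclideanSpace ℝ (Fin n)) : Measurable (avg δ e b) := by
  unfold avg
  exact (Finset.measurable_sum _ fun k _ => measurable_mult _ _ _).div_const _

theorem lintegral_avg_le [Nonempty κ] (hn : 1 ≤ n) {δ : ℝ} (hδ : 0 < δ)
    {e : ι → EuclideanSpace ℝ (Fin n)} {b : κ → ι → EuclideanSpace ℝ (Fin n)}
    (he : ∀ i, ‖e i‖ = 1) :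
    ∫⁻ y, ENNReal.ofReal (avg δ e b y) ≤
      ENNReal.ofReal ((Fintype.card ι : ℝ) * (2 * δ) ^ (n - 1)) := by
  have hJ : (0:ℝ) < Fintype.card κ := by exact_mod_cast Fintype.card_pos
  have h1 : ∀ y, ENNReal.ofReal (avg δ e b y) =
      ENNReal.ofReal ((Fintype.card κ : ℝ)⁻¹) * ∑ k, ENNReal.ofReal (mult δ e (b k) y) := by
    intro y
    unfold avg
    rw [div_eq_inv_mul, ENNReal.ofReal_mul (by positivity),
      ENNReal.ofReal_sum_of_nonneg fun k _ => mult_nonneg _ _ _ _]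
  simp_rw [h1]
  rw [lintegral_const_mul' _ _ ENNReal.ofReal_ne_top,
    lintegral_finsetSum _ fun k _ => (measurable_mult _ _ _).ennreal_ofReal]
  calc ENNReal.ofReal ((Fintype.card κ : ℝ)⁻¹) * ∑ k, ∫⁻ y, ENNReal.ofReal (mult δ e (b k) y)
      ≤ ENNReal.ofReal ((Fintype.card κ : ℝ)⁻¹) * ∑ _k : κ,
          ENNReal.ofReal ((Fintype.card ι : ℝ) * (2 * δ) ^ (n - 1)) := by
        gcongr with k _
        exact lintegral_mult_le hn hδ he
    _ = _ := by
        rw [Finset.sum_const, Finset.card_univ, nsmul_eq_mul, ← ENNReal.ofReal_natCast,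
          ← mul_assoc, ← ENNReal.ofReal_mul (by positivity), inv_mul_cancel₀ hJ.ne']
        simp

theorem lintegral_avg_rpow_le [Nonempty κ] {q δ : ℝ} (hq : 1 ≤ q)
    {e : ι → EuclideanSpace ℝ (Fin n)} {b : κ → ι → EuclideanSpace ℝ (Fin n)} {B : ℝ≥0∞}
    (hB : ∀ k, ∫⁻ y, ENNReal.ofReal (mult δ e (b k) y ^ q) ≤ B) :
    ∫⁻ y, ENNReal.ofReal (avg δ e b y ^ q) ≤ B := by
  have hJ : (0:ℝ) < Fintype.card κ := by exact_mod_cast Fintype.card_pos
  have h1 : ∀ y, ENNReal.ofReal (avg δ e b y ^ q) ≤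
      ENNReal.ofReal ((Fintype.card κ : ℝ)⁻¹) * ∑ k, ENNReal.ofReal (mult δ e (b k) y ^ q) := by
    intro y
    have h2 := Real.rpow_arith_mean_le_arith_mean_rpow (Finset.univ : Finset κ)
      (fun _ => (Fintype.card κ : ℝ)⁻¹) (fun k => mult δ e (b k) y) (fun _ _ => by positivity)
      (by rw [Finset.sum_const, Finset.card_univ, nsmul_eq_mul, mul_inv_cancel₀ hJ.ne'])
      (fun _ _ => mult_nonneg _ _ _ _) hq
    have h3 : avg δ e b y = ∑ k, (Fintype.card κ : ℝ)⁻¹ * mult δ e (b k) y := by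
      unfold avg
      rw [← Finset.mul_sum, div_eq_inv_mul]
    rw [h3, ← ENNReal.ofReal_sum_of_nonneg fun k _ => Real.rpow_nonneg (mult_nonneg _ _ _ _) _,
      ← ENNReal.ofReal_mul (by positivity)]
    apply ENNReal.ofReal_le_ofReal
    rw [Finset.mul_sum]
    exact h2
  calc ∫⁻ y, ENNReal.ofReal (avg δ e b y ^ q)
      ≤ ∫⁻ y, ENNReal.ofReal ((Fintype.card κ : ℝ)⁻¹) *
          ∑ k, ENNReal.ofReal (mult δ e (b k) y ^ q) := lintegral_mono h1
    _ = ENNReal.ofReal ((Fintype.card κ : ℝ)⁻¹) *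
          ∑ k, ∫⁻ y, ENNReal.ofReal (mult δ e (b k) y ^ q) := by
        rw [lintegral_const_mul' _ _ ENNReal.ofReal_ne_top,
          lintegral_finsetSum _ fun k _ => ((measurable_mult _ _ _).pow_const q).ennreal_ofReal]
    _ ≤ ENNReal.ofReal ((Fintype.card κ : ℝ)⁻¹) * ∑ _k : κ, B := by
        gcongr with k _
        exact hB k
    _ = B := by
        rw [Finset.sum_const, Finset.card_univ, nsmul_eq_mul, ← ENNReal.ofReal_natCast,
          ← mul_assoc, ← ENNReal.ofReal_mul (by positivity), inv_mul_cancel₀ hJ.ne']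
        simp

/-- The part of the multiplicity above the threshold. -/
noncomputable def top {n : ℕ} {ι κ : Type} [Fintype ι] [Fintype κ] (δ K L q : ℝ)
    (e : ι → EuclideanSpace ℝ (Fin n)) (b : κ → ι → EuclideanSpace ℝ (Fin n))
    (c : ι → EuclideanSpace ℝ (Fin n)) (y : EuclideanSpace ℝ (Fin n)) : ℝ :=
  if 4 * K * avg δ e b y + L < mult δ e c y then mult δ e c y ^ q else 0

theorem top_nonneg (δ K L q : ℝ) (e : ι → EuclideanSpace ℝ (Fin n))
    (b : κ → ι → EuclideanSpace ℝ (Fin n)) (c : ι → EuclideanSpace ℝ (Fin n)) (y) :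
    0 ≤ top δ K L q e b c y := by
  unfold top
  split_ifs
  · exact Real.rpow_nonneg (mult_nonneg _ _ _ _) _
  · exact le_rfl

theorem measurable_top (δ K L q : ℝ) (e : ι → EuclideanSpace ℝ (Fin n))
    (b : κ → ι → EuclideanSpace ℝ (Fin n)) (c : ι → EuclideanSpace ℝ (Fin n)) :
    Measurable (top δ K L q e b c) := by
  unfold top
  refine Measurable.ite (measurableSet_lt ?_ (measurable_mult _ _ _))
    ((measurable_mult _ _ _).pow_const q) measurable_const
  exact ((measurable_avg _ _ _).const_mul _).add_const _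

theorem sum_top_le [Nonempty κ] {K : ℝ} {w : Ω → ℝ} {τ : Ω → ι → κ} (h : Spread K w τ)
    (hK : 0 ≤ K) {q L δ : ℝ} (hq : 0 < q) (hL : 1 ≤ L) (e : ι → EuclideanSpace ℝ (Fin n))
    (b : κ → ι → EuclideanSpace ℝ (Fin n)) (y : EuclideanSpace ℝ (Fin n)) :
    ∑ ω, w ω * top δ K L q e b (fun i => b (τ ω i) i) y ≤
      4 * (2 * q) ^ q * K * Real.exp (-(L / 2)) * avg δ e b y := by
  have h1 := h.tail hK (fun i k => (tube δ (e i) (b k i)).indicator (fun _ => (1 : ℝ)) y)
    (fun i k => by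
      by_cases hy : y ∈ tube δ (e i) (b k i)
      · right; rw [indicator_of_mem hy]
      · left; rw [indicator_of_notMem hy]) hq hL
  exact h1

theorem lintegral_sum_top_le [Nonempty κ] {K : ℝ} {w : Ω → ℝ} {τ : Ω → ι → κ}
    (h : Spread K w τ) (hK : 0 ≤ K) {q L δ : ℝ} (hq : 0 < q) (hL : 1 ≤ L) (hn : 1 ≤ n)
    (hδ : 0 < δ) {e : ι → EuclideanSpace ℝ (Fin n)} (he : ∀ i, ‖e i‖ = 1)
    (b : κ → ι → EuclideanSpace ℝ (Fin n)) :
    ∑ ω, ENNReal.ofReal (w ω) *
        ∫⁻ y, ENNReal.ofReal (top δ K L q e b (fun i => b (τ ω i) i) y) ≤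
      ENNReal.ofReal (4 * (2 * q) ^ q * K * Real.exp (-(L / 2)) *
        ((Fintype.card ι : ℝ) * (2 * δ) ^ (n - 1))) := by
  have hc : 0 ≤ 4 * (2 * q) ^ q * K * Real.exp (-(L / 2)) := by positivity
  calc ∑ ω, ENNReal.ofReal (w ω) *
        ∫⁻ y, ENNReal.ofReal (top δ K L q e b (fun i => b (τ ω i) i) y)
      = ∫⁻ y, ∑ ω, ENNReal.ofReal (w ω) *
          ENNReal.ofReal (top δ K L q e b (fun i => b (τ ω i) i) y) := by
        rw [lintegral_finsetSum _ fun ω _ => (measurable_top _ _ _ _ _ _ _).ennreal_ofReal.const_mul _]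
        refine Finset.sum_congr rfl fun ω _ => ?_
        rw [lintegral_const_mul' _ _ ENNReal.ofReal_ne_top]
    _ ≤ ∫⁻ y, ENNReal.ofReal (4 * (2 * q) ^ q * K * Real.exp (-(L / 2))) *
          ENNReal.ofReal (avg δ e b y) := by
        refine lintegral_mono fun y => ?_
        have e1 : ∀ ω, ENNReal.ofReal (w ω) *
            ENNReal.ofReal (top δ K L q e b (fun i => b (τ ω i) i) y) =
            ENNReal.ofReal (w ω * top δ K L q e b (fun i => b (τ ω i) i) y) := fun ω => by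
          rw [ENNReal.ofReal_mul (h.nonneg ω)]
        simp_rw [e1]
        rw [← ENNReal.ofReal_sum_of_nonneg fun ω _ =>
          mul_nonneg (h.nonneg ω) (top_nonneg _ _ _ _ _ _ _ _), ← ENNReal.ofReal_mul hc]
        exact ENNReal.ofReal_le_ofReal (sum_top_le h hK hq hL e b y)
    _ = ENNReal.ofReal (4 * (2 * q) ^ q * K * Real.exp (-(L / 2))) *
          ∫⁻ y, ENNReal.ofReal (avg δ e b y) := lintegral_const_mul' _ _ ENNReal.ofReal_ne_top
    _ ≤ ENNReal.ofReal (4 * (2 * q) ^ q * K * Real.exp (-(L / 2))) *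
          ENNReal.ofReal ((Fintype.card ι : ℝ) * (2 * δ) ^ (n - 1)) := by
        gcongr
        exact lintegral_avg_le hn hδ he
    _ = _ := by rw [← ENNReal.ofReal_mul hc]

/-- Markov's inequality. -/
theorem mass_top_le [Nonempty κ] {K : ℝ} {w : Ω → ℝ} {τ : Ω → ι → κ}
    (h : Spread K w τ) (hK : 0 ≤ K) {q L δ : ℝ} (hq : 0 < q) (hL : 1 ≤ L) (hn : 1 ≤ n)
    (hδ : 0 < δ) {e : ι → EuclideanSpace ℝ (Fin n)} (he : ∀ i, ‖e i‖ = 1)
    (b : κ → ι → EuclideanSpace ℝ (Fin n)) (S : Finset Ω)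
    (hS : ∀ ω ∈ S, ENNReal.ofReal ((2 * δ) ^ (n - 1)) ≤
      ∫⁻ y, ENNReal.ofReal (top δ K L q e b (fun i => b (τ ω i) i) y)) :
    ∑ ω ∈ S, w ω ≤ 4 * (2 * q) ^ q * K * Real.exp (-(L / 2)) * (Fintype.card ι : ℝ) := by
  have hV : 0 < (2 * δ) ^ (n - 1) := by positivity
  have h1 := lintegral_sum_top_le h hK hq hL hn hδ he b
  have h2 : ENNReal.ofReal ((∑ ω ∈ S, w ω) * (2 * δ) ^ (n - 1)) ≤
      ∑ ω, ENNReal.ofReal (w ω) *
        ∫⁻ y, ENNReal.ofReal (top δ K L q e b (fun i => b (τ ω i) i) y) := by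
    rw [ENNReal.ofReal_mul (Finset.sum_nonneg fun ω _ => h.nonneg ω),
      ENNReal.ofReal_sum_of_nonneg fun ω _ => h.nonneg ω, Finset.sum_mul]
    calc ∑ ω ∈ S, ENNReal.ofReal (w ω) * ENNReal.ofReal ((2 * δ) ^ (n - 1))
        ≤ ∑ ω ∈ S, ENNReal.ofReal (w ω) *
            ∫⁻ y, ENNReal.ofReal (top δ K L q e b (fun i => b (τ ω i) i) y) := by
          refine Finset.sum_le_sum fun ω hω => ?_
          gcongr
          exact hS ω hω
      _ ≤ _ := Finset.sum_le_sum_of_subset (Finset.subset_univ _)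
  have h3 := h2.trans h1
  rw [ENNReal.ofReal_le_ofReal_iff (by positivity)] at h3
  have h4 : (∑ ω ∈ S, w ω) * (2 * δ) ^ (n - 1) ≤
      (4 * (2 * q) ^ q * K * Real.exp (-(L / 2)) * (Fintype.card ι : ℝ)) *
        (2 * δ) ^ (n - 1) := by
    calc _ ≤ _ := h3
      _ = _ := by ring
  exact le_of_mul_le_mul_right h4 hV

/-- The deterministic part. -/
theorem lintegral_mult_rpow_le (hn : 1 ≤ n) {K L q δ : ℝ} (hK : 0 ≤ K) (hL : 0 ≤ L) (hq : 1 < q)
    (hδ : 0 < δ) {e : ι → EuclideanSpace ℝ (Fin n)} (he : ∀ i, ‖e i‖ = 1)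
    (b : κ → ι → EuclideanSpace ℝ (Fin n)) (c : ι → EuclideanSpace ℝ (Fin n)) :
    ∫⁻ y, ENNReal.ofReal (mult δ e c y ^ q) ≤
      (∫⁻ y, ENNReal.ofReal (top δ K L q e b c y)) +
      ENNReal.ofReal ((8 * K) ^ q) * (∫⁻ y, ENNReal.ofReal (avg δ e b y ^ q)) +
      ENNReal.ofReal ((2 * L) ^ (q - 1) * ((Fintype.card ι : ℝ) * (2 * δ) ^ (n - 1))) := by
  have hq0 : 0 < q := by linarith
  have h1 : ∀ y, ENNReal.ofReal (mult δ e c y ^ q) ≤ ENNReal.ofReal (top δ K L q e b c y) +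
      ENNReal.ofReal ((8 * K) ^ q) * ENNReal.ofReal (avg δ e b y ^ q) +
      ENNReal.ofReal ((2 * L) ^ (q - 1)) * ENNReal.ofReal (mult δ e c y) := by
    intro y
    have hF := mult_nonneg δ e c y
    have hm := avg_nonneg δ e b y
    set F := mult δ e c y with hFdef
    set m := avg δ e b y with hmdef
    have h0 := top_nonneg δ K L q e b c y
    rw [← ENNReal.ofReal_mul (by positivity), ← ENNReal.ofReal_mul (by positivity),
      ← ENNReal.ofReal_add h0 (by positivity), ← ENNReal.ofReal_add (by positivity) (by positivity)]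
    apply ENNReal.ofReal_le_ofReal
    have hA : 0 ≤ (8 * K) ^ q * m ^ q := by positivity
    have hB : 0 ≤ (2 * L) ^ (q - 1) * F := by positivity
    by_cases h2 : 4 * K * m + L < F
    · have h3 : top δ K L q e b c y = F ^ q := by
        unfold top
        rw [if_pos h2]
      linarith
    · push Not at h2
      rcases le_total L (4 * K * m) with h4 | h4
      · have h5 : F ^ q ≤ (8 * K) ^ q * m ^ q := by
          rw [← Real.mul_rpow (by positivity) hm]
          exact Real.rpow_le_rpow hF (by linarith) hq0.le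
        linarith
      · have h5 : F ^ q ≤ (2 * L) ^ (q - 1) * F := by
          rcases hF.eq_or_lt with h6 | h6
          · rw [← h6, Real.zero_rpow hq0.ne']
            simp
          · have e1 : F ^ q = F ^ (q - 1) * F := by
              rw [← Real.rpow_add_one h6.ne']
              congr 1
              ring
            rw [e1]
            gcongr
            linarith
        linarith
  calc ∫⁻ y, ENNReal.ofReal (mult δ e c y ^ q)
      ≤ ∫⁻ y, (ENNReal.ofReal (top δ K L q e b c y) +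
          ENNReal.ofReal ((8 * K) ^ q) * ENNReal.ofReal (avg δ e b y ^ q) +
          ENNReal.ofReal ((2 * L) ^ (q - 1)) * ENNReal.ofReal (mult δ e c y)) := lintegral_mono h1
    _ = (∫⁻ y, ENNReal.ofReal (top δ K L q e b c y)) +
          ENNReal.ofReal ((8 * K) ^ q) * (∫⁻ y, ENNReal.ofReal (avg δ e b y ^ q)) +
          ENNReal.ofReal ((2 * L) ^ (q - 1)) * ∫⁻ y, ENNReal.ofReal (mult δ e c y) := by
        rw [lintegral_add_right _ ((measurable_mult _ _ _).ennreal_ofReal.const_mul _),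
          lintegral_add_left (measurable_top _ _ _ _ _ _ _).ennreal_ofReal,
          lintegral_const_mul' _ _ ENNReal.ofReal_ne_top,
          lintegral_const_mul' _ _ ENNReal.ofReal_ne_top]
    _ ≤ _ := by
        gcongr
        rw [ENNReal.ofReal_mul (by positivity)]
        gcongr
        exact lintegral_mult_le hn hδ he

end Pool.Agent.K3h46.TM
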